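import Pool.Agent.Helper99.BK.Stmts

namespace Pool.Helper99.BK

theorem an2_ind (f : ℕ → ℝ) (c : ℕ → ℕ) (h0 : f 0 ≤ 0)
    (hf : ∀ n m : ℕ, n + 1 ≤ ∑ s ∈ Finset.range (m + 1), c s → f (n + 1) ≤ f n + m)
    (ι : Type) [DecidableEq ι] (t : ι → ℕ) :
    ∀ (n : ℕ) (I : Finset ι), I.card = n → (∀ s, (I.filter (fun j => t j = s)).card ≤ c s) →
      f n ≤ ∑ j ∈ I, (t j : ℝ) := by
  intro n
  induction n with
  | zero =>
    intro I hI _
    rw [Finset.card_eq_zero.mp hI, Finset.sum_empty]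
    exact h0
  | succ n ih =>
    intro I hI hc
    have hne : I.Nonempty := by
      rw [← Finset.card_pos, hI]; omega
    obtain ⟨j, hj, hmax⟩ := Finset.exists_max_image I t hne
    have h1 : n + 1 ≤ ∑ s ∈ Finset.range (t j + 1), c s := by
      rw [← hI]
      have h2 := Finset.card_eq_sum_card_fiberwise (f := t) (s := I)
        (t := Finset.range (t j + 1)) (fun i hi => by
          rw [Finset.mem_coe] at hi
          rw [Finset.mem_coe, Finset.mem_range]
          have := hmax i hi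
          omega)
      rw [h2]
      exact Finset.sum_le_sum (fun s _ => hc s)
    have h3 := hf n (t j) h1
    have h4 := ih (I.erase j) (by rw [Finset.card_erase_of_mem hj, hI]; rfl) (fun s => by
      refine le_trans (Finset.card_le_card ?_) (hc s)
      exact Finset.filter_subset_filter _ (Finset.erase_subset j I))
    have h5 := Finset.add_sum_erase I (fun i => (t i : ℝ)) hj
    rw [← h5]
    linarith

theorem an2_gauss (k : ℕ) : 2 * ∑ s ∈ Finset.range k, (s + 1) = k * (k + 1) := by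
  induction k with
  | zero => rfl
  | succ k ih =>
    rw [Finset.sum_range_succ, mul_add, ih]
    ring

theorem st_AN2 : ST_AN2 := by
  intro ι _ I t
  refine ⟨fun h => ?_, fun h => ?_⟩
  · refine an2_ind (fun n => (n : ℝ) * (Real.sqrt n - 1) / 2) (fun s => s + 1) (by simp)
      ?_ ι t I.card I rfl h
    intro n m hnm
    show (((n + 1 : ℕ) : ℝ)) * (Real.sqrt ((n + 1 : ℕ) : ℝ) - 1) / 2 ≤
      (n : ℝ) * (Real.sqrt n - 1) / 2 + m
    have hg := an2_gauss (m + 1)
    have h1 : 2 * (n + 1) ≤ (m + 1) * (m + 1 + 1) := by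
      rw [← hg]; omega
    set a := Real.sqrt ((n + 1 : ℕ) : ℝ) with ha
    set b := Real.sqrt (n : ℝ) with hb
    have ha2 : a ^ 2 = (n : ℝ) + 1 := by
      rw [ha, Real.sq_sqrt (Nat.cast_nonneg _)]; push_cast; ring
    have hb2 : b ^ 2 = (n : ℝ) := by
      rw [hb, Real.sq_sqrt (Nat.cast_nonneg _)]
    have ha0 : 0 ≤ a := Real.sqrt_nonneg _
    have hb0 : 0 ≤ b := Real.sqrt_nonneg _
    have hab : b ≤ a := by
      apply Real.sqrt_le_sqrt
      push_cast
      linarith
    have h2 : 2 * a ^ 2 ≤ ((m : ℝ) + 1) * (m + 2) := by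
      rw [ha2]
      have : ((2 * (n + 1) : ℕ) : ℝ) ≤ (((m + 1) * (m + 1 + 1) : ℕ) : ℝ) := by exact_mod_cast h1
      push_cast at this
      linarith
    have h3 : a ^ 3 - b ^ 3 ≤ 3 / 2 * a := by
      have e1 : a ^ 2 - b ^ 2 = 1 := by rw [ha2, hb2]; ring
      have e2 : 3 / 2 * a - (a ^ 3 - b ^ 3) = (a - b) * (a - b) * (a / 2 + b) := by
        have : 3 / 2 * a = 3 / 2 * a * (a ^ 2 - b ^ 2) := by rw [e1]; ring
        rw [this]; ring
      have e3 : 0 ≤ (a - b) * (a - b) * (a / 2 + b) :=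
        mul_nonneg (mul_self_nonneg _) (by positivity)
      linarith
    have e4 : (((n + 1 : ℕ) : ℝ)) = a ^ 2 := by rw [ha2]; push_cast; ring
    rw [e4, ← hb2]
    suffices hs : a ^ 3 - b ^ 3 - 1 ≤ 2 * m by
      have e5 : a ^ 2 - b ^ 2 = 1 := by rw [ha2, hb2]; ring
      nlinarith
    rcases Nat.eq_zero_or_pos m with hm | hm
    · subst hm
      have hn : n = 0 := by omega
      subst hn
      have hb' : b = 0 := by rw [hb]; simp
      have ha' : a = 1 := by rw [ha]; simp
      rw [ha', hb']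
      norm_num
    · have hm1 : (1 : ℝ) ≤ m := by exact_mod_cast hm
      have h6 : a ≤ (4 * m + 2) / 3 := by
        refine abs_le_of_sq_le_sq' ?_ (by positivity) |>.2
        nlinarith
      linarith
  · refine an2_ind (fun n => (n : ℝ) * ((n : ℝ) - 1) / 2) (fun _ => 1) (by simp)
      ?_ ι t I.card I rfl h
    intro n m hnm
    show (((n + 1 : ℕ) : ℝ)) * (((n + 1 : ℕ) : ℝ) - 1) / 2 ≤ (n : ℝ) * ((n : ℝ) - 1) / 2 + m
    rw [Finset.sum_const, Finset.card_range, smul_eq_mul, mul_one] at hnm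
    have h1 : (n : ℝ) ≤ m := by
      have : n ≤ m := by omega
      exact_mod_cast this
    push_cast
    nlinarith

end Pool.Helper99.BK
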