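import Pool.Agent.Helper99.BK.Stmts

namespace Pool.Helper99.BK

/-- the truncated coefficient -/
noncomputable def an7a (k1 k2 : ℕ) (l x y c : ℂ) (s : ℕ) : ℂ :=
  if k1 + k2 ≤ s then
    x ^ k1 * y ^ k2 * ((l * c) ^ (s - (k1 + k2)) / ((s - (k1 + k2)).factorial : ℂ)) else 0

theorem an7_sum (k1 k2 T : ℕ) (l x y c w : ℂ) :
    ∑ s ∈ Finset.range T, w ^ s * an7a k1 k2 l x y c s =
      w ^ (k1 + k2) * (x ^ k1 * y ^ k2) *
        ∑ m ∈ Finset.range (T - (k1 + k2)), (w * (l * c)) ^ m / (m.factorial : ℂ) := by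
  by_cases h : k1 + k2 ≤ T
  · obtain ⟨d, rfl⟩ := Nat.exists_eq_add_of_le h
    rw [Finset.sum_range_add]
    have h1 : ∑ s ∈ Finset.range (k1 + k2), w ^ s * an7a k1 k2 l x y c s = 0 := by
      apply Finset.sum_eq_zero
      intro s hs
      rw [Finset.mem_range] at hs
      rw [an7a, if_neg (by omega), mul_zero]
    rw [h1, zero_add, Finset.mul_sum]
    have h2 : k1 + k2 + d - (k1 + k2) = d := by omega
    rw [h2]
    refine Finset.sum_congr rfl ?_
    intro m _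
    have h3 : k1 + k2 + m - (k1 + k2) = m := by omega
    rw [an7a, if_pos (by omega), h3, mul_pow]
    ring
  · have h2 : T - (k1 + k2) = 0 := by omega
    rw [h2, Finset.range_zero, Finset.sum_empty, mul_zero]
    apply Finset.sum_eq_zero
    intro s hs
    rw [Finset.mem_range] at hs
    rw [an7a, if_neg (by omega), mul_zero]

/-- the space -/
noncomputable def an7W {ι : Type} (z1 z2 : ι → ℂ) (s : ℕ) : Submodule ℂ (ι → ℂ) :=
  Submodule.span ℂ (Set.range (fun i : Fin (s + 1) => fun p => z1 p ^ (i : ℕ) * z2 p ^ (s - (i : ℕ))))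

theorem an7_finrank {ι : Type} (z1 z2 : ι → ℂ) (s : ℕ) :
    Module.finrank ℂ (an7W z1 z2 s) ≤ s + 1 := by
  have h := finrank_range_le_card (R := ℂ)
    (fun i : Fin (s + 1) => fun p => z1 p ^ (i : ℕ) * z2 p ^ (s - (i : ℕ)))
  rw [Fintype.card_fin] at h
  exact h

theorem an7_mem {ι : Type} (z1 z2 : ι → ℂ) (l1 l2 l : ℂ) (k1 k2 s : ℕ) :
    (fun p => an7a k1 k2 l (z1 p) (z2 p) (z1 p * l1 + z2 p * l2) s) ∈ an7W z1 z2 s := by
  by_cases h : k1 + k2 ≤ s
  · obtain ⟨m, rfl⟩ := Nat.exists_eq_add_of_le h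
    have h3 : k1 + k2 + m - (k1 + k2) = m := by omega
    have h4 : (fun p => an7a k1 k2 l (z1 p) (z2 p) (z1 p * l1 + z2 p * l2) (k1 + k2 + m)) =
        ∑ i ∈ Finset.range (m + 1), (l ^ m / (m.factorial : ℂ) * l1 ^ i * l2 ^ (m - i) *
          ((m.choose i : ℕ) : ℂ)) •
          (fun p => z1 p ^ (k1 + i) * z2 p ^ (k1 + k2 + m - (k1 + i))) := by
      funext p
      rw [an7a, if_pos (by omega), h3, mul_pow, add_pow, Finset.sum_apply]
      rw [Finset.mul_sum, Finset.sum_div, Finset.mul_sum]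
      refine Finset.sum_congr rfl ?_
      intro i hi
      rw [Finset.mem_range] at hi
      have h5 : k1 + k2 + m - (k1 + i) = k2 + (m - i) := by omega
      rw [h5, Pi.smul_apply, smul_eq_mul, mul_pow, mul_pow, pow_add, pow_add]
      ring
    rw [h4]
    refine Submodule.sum_mem _ ?_
    intro i hi
    rw [Finset.mem_range] at hi
    refine Submodule.smul_mem _ _ ?_
    refine Submodule.subset_span ?_
    exact ⟨⟨k1 + i, by omega⟩, rfl⟩
  · have h4 : (fun p => an7a k1 k2 l (z1 p) (z2 p) (z1 p * l1 + z2 p * l2) s) = 0 := by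
      funext p
      rw [an7a, if_neg h]
      rfl
    rw [h4]
    exact Submodule.zero_mem _

theorem st_AN7 (h2 : ST_AN2) (h3 : ST_AN3) (h4 : ST_AN4) (h5 : ST_AN5) (h6 : ST_AN6) :
    ST_AN7 := by
  intro K Lc I z1 z2 l1 l2 A Z C0 B hZ hC0 hz1 hz2 hc hB hA
  classical
  set x : ℝ := (I.card : ℝ) * (Real.sqrt I.card - 1) / 2 with hx
  have hx0 : 0 ≤ x := by
    rcases Nat.eq_zero_or_pos I.card with h0 | h0
    · rw [hx, h0]; simp
    · have h1 : (1 : ℝ) ≤ Real.sqrt I.card := by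
        rw [Real.one_le_sqrt]
        exact_mod_cast h0
      have h1' : (0 : ℝ) ≤ (I.card : ℝ) := Nat.cast_nonneg _
      have := mul_nonneg h1' (by linarith : (0 : ℝ) ≤ Real.sqrt I.card - 1)
      rw [hx]; linarith
  set T : ℕ := ⌊x⌋₊ with hT
  have hTx : (T : ℝ) ≤ x := Nat.floor_le hx0
  have hxT : x < (T : ℝ) + 1 := Nat.lt_floor_add_one x
  choose r hr1 hr2 using h4
  let c : (Fin K × Fin K × Fin Lc) → ℂ := fun p => z1 p * l1 + z2 p * l2
  let lj : (Fin K × Fin K × Fin Lc) → ℂ := fun j => ((j.2.2 : ℕ) : ℂ)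
  let a : (Fin K × Fin K × Fin Lc) → ℕ → (Fin K × Fin K × Fin Lc) → ℂ := fun j s p => an7a j.1 j.2.1 (lj j) (z1 p) (z2 p) (c p) s
  let T' : (Fin K × Fin K × Fin Lc) → ℕ := fun j => T - ((j.1 : ℕ) + (j.2.1 : ℕ))
  let rr : (Fin K × Fin K × Fin Lc) → (Fin K × Fin K × Fin Lc) → ℂ → ℂ := fun j p w =>
    w ^ ((j.1 : ℕ) + (j.2.1 : ℕ) + T' j - T) * (z1 p ^ (j.1 : ℕ) * z2 p ^ (j.2.1 : ℕ) *
      (lj j * c p) ^ (T' j)) * r (T' j) (w * (lj j * c p))
  have hE : ∀ (j p : (Fin K × Fin K × Fin Lc)) (w : ℂ), (∑ s ∈ Finset.range T, w ^ s * a j s p) + w ^ T * rr j p w =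
      (w * z1 p) ^ (j.1 : ℕ) * (w * z2 p) ^ (j.2.1 : ℕ) * Complex.exp (w * (lj j * c p)) := by
    intro j p w
    have e1 := an7_sum (j.1 : ℕ) (j.2.1 : ℕ) T (lj j) (z1 p) (z2 p) (c p) w
    have e2 : w ^ T * w ^ ((j.1 : ℕ) + (j.2.1 : ℕ) + T' j - T) =
        w ^ ((j.1 : ℕ) + (j.2.1 : ℕ)) * w ^ (T' j) := by
      rw [← pow_add, ← pow_add]
      congr 1
      show T + (_ + (T - _) - T) = _ + (T - _)
      omega
    have e3 := hr2 (T' j) (w * (lj j * c p))
    have e4 : w ^ T * rr j p w = w ^ ((j.1 : ℕ) + (j.2.1 : ℕ)) * (z1 p ^ (j.1 : ℕ) *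
        z2 p ^ (j.2.1 : ℕ)) * ((w * (lj j * c p)) ^ (T' j) * r (T' j) (w * (lj j * c p))) := by
      have e5 : w ^ T * rr j p w = (w ^ T * w ^ ((j.1 : ℕ) + (j.2.1 : ℕ) + T' j - T)) *
        (z1 p ^ (j.1 : ℕ) * z2 p ^ (j.2.1 : ℕ) *
        (lj j * c p) ^ (T' j)) * r (T' j) (w * (lj j * c p)) := by
        show w ^ T * (w ^ ((j.1 : ℕ) + (j.2.1 : ℕ) + T' j - T) * (z1 p ^ (j.1 : ℕ) *
          z2 p ^ (j.2.1 : ℕ) * (lj j * c p) ^ (T' j)) * r (T' j) (w * (lj j * c p))) = _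
        ring
      rw [e5, e2, mul_pow w (lj j * c p) (T' j)]
      ring
    rw [e4]
    show (∑ s ∈ Finset.range T, w ^ s * an7a j.1 j.2.1 (lj j) (z1 p) (z2 p) (c p) s) + _ = _
    rw [e1, ← mul_add]
    show w ^ ((j.1 : ℕ) + (j.2.1 : ℕ)) * (z1 p ^ (j.1 : ℕ) * z2 p ^ (j.2.1 : ℕ)) *
      ((∑ m ∈ Finset.range (T' j), (w * (lj j * c p)) ^ m / (m.factorial : ℂ)) + _) = _
    rw [← e3, mul_pow, mul_pow, pow_add]
    ring
  have hW : ∀ t : (Fin K × Fin K × Fin Lc) → ℕ, (∀ s, (I.filter (fun j => t j = s)).card ≤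
      Module.finrank ℂ (an7W z1 z2 s)) → T ≤ ∑ j ∈ I, t j := by
    intro t ht
    have e1 := (h2 (Fin K × Fin K × Fin Lc) I t).1 (fun s => (ht s).trans (an7_finrank z1 z2 s))
    have e2 : (T : ℝ) ≤ ((∑ j ∈ I, t j : ℕ) : ℝ) := by
      rw [Nat.cast_sum]
      exact hTx.trans e1
    exact_mod_cast e2
  have haW : ∀ j ∈ I, ∀ s < T, a j s ∈ an7W z1 z2 s := by
    intro j _ s _
    exact an7_mem z1 z2 l1 l2 (lj j) j.1 j.2.1 s
  have hrr : ∀ j p, Differentiable ℂ (rr j p) := by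
    intro j p
    have d1 : Differentiable ℂ (fun w : ℂ => r (T' j) (w * (lj j * c p))) :=
      (hr1 (T' j)).comp (differentiable_id.mul_const _)
    exact ((differentiable_id.pow _).mul_const _).mul d1
  obtain ⟨g, hg, hdet⟩ := h3 (Fin K × Fin K × Fin Lc) I T (an7W z1 z2) hW a haW rr hrr A
  let f : ℂ → ℂ := fun w => (Matrix.of (fun p j : (Fin K × Fin K × Fin Lc) => if j ∈ I then
    (w * z1 p) ^ (j.1 : ℕ) * (w * z2 p) ^ (j.2.1 : ℕ) * Complex.exp (w * (lj j * c p))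
      else A p j)).det
  have hf : ∀ w, f w = w ^ T * g w := by
    intro w
    rw [← hdet w]
    show (Matrix.of (fun p j : (Fin K × Fin K × Fin Lc) => if j ∈ I then
      (w * z1 p) ^ (j.1 : ℕ) * (w * z2 p) ^ (j.2.1 : ℕ) * Complex.exp (w * (lj j * c p))
        else A p j)).det = _
    simp only [hE]
  have hB0 : 0 < B := lt_of_lt_of_le (by positivity) hB
  have hcard : Fintype.card (Fin K × Fin K × Fin Lc) = K * K * Lc := by
    rw [Fintype.card_prod, Fintype.card_prod, Fintype.card_fin, Fintype.card_fin, mul_assoc]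
  have hbound : ∀ w : ℂ, ‖w‖ = Real.exp 1 →
      ‖f w‖ ≤ ((K * K * Lc).factorial : ℝ) * B ^ (K * K * Lc) := by
    intro w hw
    have := h6 (Fin K × Fin K × Fin Lc) (Matrix.of (fun p j : (Fin K × Fin K × Fin Lc) => if j ∈ I then
      (w * z1 p) ^ (j.1 : ℕ) * (w * z2 p) ^ (j.2.1 : ℕ) * Complex.exp (w * (lj j * c p))
        else A p j)) B ?_
    · rw [hcard] at this
      exact this
    intro p j
    rw [Matrix.of_apply]
    by_cases hj : j ∈ I
    · rw [if_pos hj]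
      refine le_trans ?_ hB
      rw [norm_mul, norm_mul, norm_pow, norm_pow, norm_mul, norm_mul, hw]
      have he3 : Real.exp 1 ≤ 3 := by
        have := Real.exp_one_lt_d9
        linarith
      have hb1 : Real.exp 1 * ‖z1 p‖ ≤ 3 * Z :=
        mul_le_mul he3 (hz1 p) (norm_nonneg _) (by norm_num)
      have hb2 : Real.exp 1 * ‖z2 p‖ ≤ 3 * Z :=
        mul_le_mul he3 (hz2 p) (norm_nonneg _) (by norm_num)
      have hp1 : (Real.exp 1 * ‖z1 p‖) ^ (j.1 : ℕ) ≤ (3 * Z) ^ K := by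
        refine (pow_le_pow_left₀ (by positivity) hb1 _).trans ?_
        exact pow_le_pow_right₀ (by linarith) j.1.2.le
      have hp2 : (Real.exp 1 * ‖z2 p‖) ^ (j.2.1 : ℕ) ≤ (3 * Z) ^ K := by
        refine (pow_le_pow_left₀ (by positivity) hb2 _).trans ?_
        exact pow_le_pow_right₀ (by linarith) j.2.1.2.le
      have hp3 : ‖Complex.exp (w * (lj j * c p))‖ ≤ Real.exp (3 * Lc * C0) := by
        rw [Complex.norm_exp]
        apply Real.exp_le_exp.mpr
        refine (Complex.re_le_norm _).trans ?_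
        rw [norm_mul, norm_mul, hw]
        have q1 : ‖lj j‖ ≤ (Lc : ℝ) := by
          show ‖((j.2.2 : ℕ) : ℂ)‖ ≤ _
          rw [Complex.norm_natCast]
          exact_mod_cast j.2.2.2.le
        have q2 : ‖lj j‖ * ‖c p‖ ≤ (Lc : ℝ) * C0 :=
          mul_le_mul q1 (hc p) (norm_nonneg _) (Nat.cast_nonneg _)
        calc Real.exp 1 * (‖lj j‖ * ‖c p‖) ≤ 3 * ((Lc : ℝ) * C0) :=
              mul_le_mul he3 q2 (by positivity) (by norm_num)
          _ = 3 * Lc * C0 := by ring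
      calc (Real.exp 1 * ‖z1 p‖) ^ (j.1 : ℕ) * (Real.exp 1 * ‖z2 p‖) ^ (j.2.1 : ℕ) *
            ‖Complex.exp (w * (lj j * c p))‖
          ≤ (3 * Z) ^ K * (3 * Z) ^ K * Real.exp (3 * Lc * C0) := by
            refine mul_le_mul (mul_le_mul hp1 hp2 (by positivity) (by positivity)) hp3
              (norm_nonneg _) (by positivity)
        _ = (3 * Z) ^ (2 * K) * Real.exp (3 * Lc * C0) := by
            rw [← pow_add, two_mul]
    · rw [if_neg hj]
      exact hA p j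
  have hfin := h5 T f g hg hf _ hbound
  have hf1 : f 1 = (Matrix.of (fun p j : (Fin K × Fin K × Fin Lc) => if j ∈ I then
        z1 p ^ (j.1 : ℕ) * z2 p ^ (j.2.1 : ℕ) *
          Complex.exp (((j.2.2 : ℕ) : ℂ) * (z1 p * l1 + z2 p * l2)) else A p j)).det := by
    show (Matrix.of (fun p j : (Fin K × Fin K × Fin Lc) => if j ∈ I then
      (1 * z1 p) ^ (j.1 : ℕ) * (1 * z2 p) ^ (j.2.1 : ℕ) *
        Complex.exp (1 * (((j.2.2 : ℕ) : ℂ) * (z1 p * l1 + z2 p * l2)))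
        else A p j)).det = _
    simp only [one_mul]
  rw [← hf1]
  refine hfin.trans ?_
  refine mul_le_mul_of_nonneg_right ?_ (by positivity)
  apply Real.exp_le_exp.mpr
  linarith

end Pool.Helper99.BK
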