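import Pool.Agent.Helper99.BK.Stmts

namespace Pool.Helper99.BK

open NumberField

theorem ubc_not_torsion (K : Type) [Field K] [NumberField K] (i : Fin (Units.rank K)) :
    Units.fundSystem K i ∉ Units.torsion K := by
  intro h
  rw [← Units.dirichletUnitTheorem.logEmbedding_eq_zero_iff, Units.logEmbedding_fundSystem] at h
  have h1 : Units.basisUnitLattice K i = 0 := by
    apply Subtype.ext
    exact h
  exact (Units.basisUnitLattice K).ne_zero i h1

theorem ubc_coe (K : Type) [Field K] [NumberField K] (x : (𝓞 K)ˣ) (m : ℤ) :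
    (((x ^ m : (𝓞 K)ˣ) : 𝓞 K) : K) = (((x : (𝓞 K)ˣ) : 𝓞 K) : K) ^ m :=
  Units.coe_zpow x m

theorem st_UBC (h : ST_UB0) : ST_UBC := by
  obtain ⟨c, hc, h0⟩ := h
  refine ⟨c, hc, ?_⟩
  intro K _ _ hK h2
  have hrank : Units.rank K = 1 := by
    unfold Units.rank
    rw [h2]
  have hlt : 0 < Units.rank K := by omega
  let i0 : Fin (Units.rank K) := ⟨0, hlt⟩
  have hi : ∀ i : Fin (Units.rank K), i = i0 := by
    intro i
    apply Fin.ext
    show (i : ℕ) = 0
    have := i.2
    omega
  have hodd : Odd (Module.finrank ℚ K) := by rw [hK]; decide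
  refine ⟨Units.fundSystem K i0, ?_, ?_⟩
  · intro u
    obtain ⟨ζe, h1, _⟩ := Units.exist_unique_eq_mul_prod K u
    refine ⟨ζe.2 i0, ?_⟩
    have h3 : ∏ i, Units.fundSystem K i ^ (ζe.2 i) = Units.fundSystem K i0 ^ (ζe.2 i0) :=
      Fintype.prod_eq_single i0 (fun j hj => absurd (hi j) hj)
    rw [h3] at h1
    rcases Units.torsion_eq_one_or_neg_one_of_odd_finrank hodd ζe.1 with h4 | h4
    · left
      rw [h1, h4, one_mul]
    · right
      rw [h1, h4, neg_mul, one_mul]
  · intro m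
    have hne1 : Units.fundSystem K i0 ≠ 1 := by
      intro h1
      exact ubc_not_torsion K i0 (h1 ▸ Subgroup.one_mem _)
    have hne2 : Units.fundSystem K i0 ≠ -1 := by
      intro h1
      apply ubc_not_torsion K i0
      rw [h1]
      exact neg_one_mem_torsion
    obtain ⟨σ, hσ⟩ := h0 K hK _ hne1 hne2
    refine ⟨σ, ?_⟩
    rw [ubc_coe, map_zpow₀, norm_zpow, Real.log_zpow, abs_mul, mul_comm]
    exact mul_le_mul_of_nonneg_left hσ (abs_nonneg _)

end Pool.Helper99.BK
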